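import Pool.Agent.Helper49.RU.All

/-!
MP_a60174_an, Q1, real scalars.  For every conjugation-free ultrafilter `U` on the natural numbers and
every `1 < p < ∞` the algebra `A_(p,U)` over the real scalars is not reflexive; such ultrafilters exist
when `p = c`, in particular under the continuum hypothesis.
-/

set_option autoImplicit false

open Pool.Agent.Helper49.RU
open scoped ENNReal Cardinal

namespace Pool.Agent.Results.MP_a60174_an.ConjugationFree

/-- (a) Every conjugation-free ultrafilter `U` on `ℕ` is nonprincipal, and for real scalars and all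
`1 < p < ∞` the closure in the weak operator topology of the algebra of ultrapowers `T^U`,
`T ∈ B(L^p[0,1])`, is not a reflexive operator algebra.  (b) If `p = c`, then conjugation-free
ultrafilters exist.  (c) The continuum hypothesis implies `p = c`. -/
theorem result :
    (∀ U : Ultrafilter ℕ, ConjFree U → (∀ n : ℕ, {n} ∉ U) ∧
      ∀ (p : ℝ≥0∞) [Fact (1 ≤ p)], 1 < p → p < ∞ → ¬ AlgReflexive U (LpI p)) ∧
    (PEqC → ∃ U : Ultrafilter ℕ, ConjFree U) ∧
    ((Cardinal.aleph 1 : Cardinal.{0}) = 𝔠 → PEqC) :=
  mainClass aCHP aNAT aRED aEMB aHLB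

end Pool.Agent.Results.MP_a60174_an.ConjugationFree
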